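import Pool.Agent.H.MP_f44585_an.E

open Finset Filter Topology

namespace Pool.Agent.Results.MP_18663b_an.AllBases

theorem result : ∀ r : ℕ, 2 ≤ r → ∃ x : ℝ, x ≠ 0 ∧
    Tendsto (fun N : ℕ => (((range N).filter fun i =>
      ⌊x * (r : ℝ) ^ (i + 1)⌋ % (r : ℤ) ≠ 0).card : ℝ) / N) atTop (𝓝 0) ∧
    ∀ (k : ℕ) (w : Fin k → Fin r), Tendsto (fun N : ℕ => (((range N).filter fun i => ∀ j : Fin k,
      ⌊x⁻¹ * (r : ℝ) ^ (i + (j : ℕ) + 1)⌋ % (r : ℤ) = ((w j : ℕ) : ℤ)).card : ℝ) / N)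
      atTop (𝓝 (1 / (r : ℝ) ^ k)) := by
  intro r hr
  obtain ⟨d, h1, h2⟩ := H.MP_f44585_an.main hr (F := fun y => (1 + y)⁻¹)
    (F' := fun y => -((1 + y) ^ 2)⁻¹) (fun y hy => by
      have := (hasStrictDerivAt_inv (x := 1 + y) (by positivity)).comp y
        ((hasStrictDerivAt_id y).const_add 1)
      rw [mul_one] at this
      exact this)
    ((Set.countable_range fun q : ℚ => √(-q : ℝ)⁻¹ - 1).mono fun y ⟨hy, h⟩ => by
      obtain ⟨q, hq⟩ := not_not.1 h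
      exact ⟨q, by simp [hq, Real.sqrt_sq (show 0 ≤ 1 + y by positivity)]⟩)
  have y0 : 0 ≤ H.MP_f44585_an.val r d := tsum_nonneg fun n => by positivity
  exact ⟨_, by positivity, by simpa using H.MP_f44585_an.sparse hr 1 h1,
    H.MP_f44585_an.normal hr h2⟩

end Pool.Agent.Results.MP_18663b_an.AllBases
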